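import Pool.Agent.E8helper59.TS.Stm

/-!
TS9: the density bound from the count.
-/

set_option autoImplicit false
open MeasureTheory Set Filter Topology
open scoped Pointwise ENNReal

namespace Pool.Agent.E8helper51.TS

open Pool.Agent.E8helper59.TS

lemma vol_ball (m : ℕ) (R : ℝ) (hR : 0 < R) :
    volume (Metric.closedBall (0 : E m) R) = ENNReal.ofReal ((2 * R) ^ (m + 2)) := by
  have e : Metric.closedBall (0 : E m) R =
      (Metric.closedBall (0 : ℝ) R ×ˢ Metric.closedBall (0 : ℝ) R) ×ˢ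
        Metric.closedBall (0 : Fin m → ℝ) R := by
    rw [closedBall_prod_same, closedBall_prod_same]
    rfl
  rw [e, Measure.volume_eq_prod, Measure.prod_prod, Measure.volume_eq_prod, Measure.prod_prod,
    Real.volume_closedBall, Real.volume_pi_closedBall _ hR.le, Fintype.card_fin,
    ← ENNReal.ofReal_mul (by positivity), ← ENNReal.ofReal_mul (by positivity)]
  congr 1
  ring

lemma vol_trans (m : ℕ) (K : Set (E m)) (t : E m) :
    volume ((fun x => t + x) '' K) = volume K := by
  have h : (volume : Measure (E m)).IsAddLeftInvariant := by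
    rw [Measure.volume_eq_prod]
    infer_instance
  have e : (fun x => t + x) '' K = (fun x => (-t) + x) ⁻¹' K := by
    ext x
    simp only [Set.mem_image, Set.mem_preimage]
    constructor
    · rintro ⟨y, hy, rfl⟩
      simpa using hy
    · intro hx
      exact ⟨-t + x, hx, by simp⟩
  rw [e, measure_preimage_add]

lemma lim_aux (A C : ℝ) (hA : 0 < A) :
    Tendsto (fun R : ℝ => ((2 * R + C) ^ 2 + A) / (A * (2 * R) ^ 2)) atTop (𝓝 (1 / A)) := by
  have h1 : Tendsto (fun R : ℝ => (2 * R)⁻¹) atTop (𝓝 0) :=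
    tendsto_inv_atTop_zero.comp (tendsto_id.const_mul_atTop (by norm_num : (0 : ℝ) < 2))
  have h2 : Tendsto (fun R : ℝ => (1 + C * (2 * R)⁻¹) ^ 2 / A + ((2 * R)⁻¹) ^ 2) atTop
      (𝓝 ((1 + C * 0) ^ 2 / A + 0 ^ 2)) :=
    (((h1.const_mul C).const_add 1).pow 2 |>.div_const A).add (h1.pow 2)
  have e : (1 + C * 0) ^ 2 / A + 0 ^ 2 = 1 / A := by ring
  rw [e] at h2
  refine h2.congr' ?_
  filter_upwards [eventually_gt_atTop (0 : ℝ)] with R hR
  field_simp

theorem t_MAIN (_h1 : S_HALF) (h2 : S_CNT) (h3 : S_CAP) : S_MAIN := by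
  intro m D P₀ hDc hDv hDi hP hsub hmin T hT
  obtain ⟨hA, hAt, hcap⟩ := h3 m D P₀ hDc hDv hDi hP hmin
  obtain ⟨A, hAdef⟩ : ∃ A : ℝ, A = (volume P₀).toReal := ⟨_, rfl⟩
  rw [← hAdef] at hA hcap
  have hvA : volume P₀ = ENNReal.ofReal A := by rw [hAdef, ENNReal.ofReal_toReal hAt]
  obtain ⟨C, hC, hcnt⟩ := h2 m D A hA.le hDc hDv hDi hcap
  have hK : IsCompact (Cyl m D) := hDc.prod isCompact_Icc
  have hfin : IsFiniteMeasureOnCompacts (volume : Measure (E m)) := by
    rw [Measure.volume_eq_prod, Measure.volume_eq_prod]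
    infer_instance
  have hKt : volume (Cyl m D) ≠ ⊤ := hK.measure_lt_top.ne
  have hbound : ∀ R : ℝ, 0 < R →
      (∑' t : {t : E m // t ∈ T ∧ (fun x => t + x) '' Cyl m D ⊆ Metric.closedBall 0 R},
          volume ((fun x => (t : E m) + x) '' Cyl m D)) /
            volume (Metric.closedBall (0 : E m) R) ≤
        ENNReal.ofReal (((2 * R + C) ^ 2 + A) / (A * (2 * R) ^ 2)) * volume (Cyl m D) := by
    intro R hR
    rw [vol_ball m R hR]
    simp only [vol_trans]
    have hpos : (0 : ℝ) < (2 * R) ^ (m + 2) := by positivity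
    rw [ENNReal.div_le_iff (by simpa using hpos) ENNReal.ofReal_ne_top]
    rw [ENNReal.tsum_eq_iSup_sum]
    apply iSup_le
    intro s
    rw [Finset.sum_const, nsmul_eq_mul]
    have hc := hcnt T hT R (s.map (Function.Embedding.subtype _)) hR.le (by
      intro t ht
      rw [Finset.mem_map] at ht
      obtain ⟨t', _, rfl⟩ := ht
      exact t'.2)
    rw [Finset.card_map] at hc
    calc (s.card : ℝ≥0∞) * volume (Cyl m D)
        ≤ ENNReal.ofReal ((2 * R) ^ m * ((2 * R + C) ^ 2 + A) / A) * volume (Cyl m D) := by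
          gcongr
          rw [← ENNReal.ofReal_natCast]
          apply ENNReal.ofReal_le_ofReal
          rw [le_div_iff₀ hA]
          exact hc
      _ = ENNReal.ofReal (((2 * R + C) ^ 2 + A) / (A * (2 * R) ^ 2)) * volume (Cyl m D) *
            ENNReal.ofReal ((2 * R) ^ (m + 2)) := by
          rw [mul_right_comm, ← ENNReal.ofReal_mul (by positivity)]
          congr 2
          rw [pow_add]
          field_simp
  have hlim : Tendsto (fun R : ℝ =>
      ENNReal.ofReal (((2 * R + C) ^ 2 + A) / (A * (2 * R) ^ 2)) * volume (Cyl m D)) atTop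
      (𝓝 (ENNReal.ofReal (1 / A) * volume (Cyl m D))) :=
    ENNReal.Tendsto.mul_const (ENNReal.tendsto_ofReal (lim_aux A C hA)) (Or.inr hKt)
  calc _ ≤ limsup (fun R : ℝ =>
      ENNReal.ofReal (((2 * R + C) ^ 2 + A) / (A * (2 * R) ^ 2)) * volume (Cyl m D)) atTop := by
        refine limsup_le_limsup ?_
        filter_upwards [eventually_gt_atTop (0 : ℝ)] with R hR
        exact hbound R hR
    _ = ENNReal.ofReal (1 / A) * volume (Cyl m D) := hlim.limsup_eq
    _ = volume (Cyl m D) / volume P₀ := by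
        rw [hvA, one_div, ENNReal.ofReal_inv_of_pos hA, mul_comm, div_eq_mul_inv]

end Pool.Agent.E8helper51.TS
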